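import Mathlib
import Pool.Agent.N753.DR.Stm2

/-!
# Separation of closed points modulo good primes

Project CV of helper753, part CV/SEPC, by helper776.
-/

set_option autoImplicit false

namespace Pool.Agent.N776.CV

open NumberField IsDedekindDomain Module Polynomial Pool.Agent.N753.DR

/-- a common denominator -/
theorem exists_den {K : Type} [Field K] [NumberField K] (s : Finset K) :
    ∃ d : ℕ, d ≠ 0 ∧ ∀ x ∈ s, IsIntegral ℤ ((d : K) * x) := by
  obtain ⟨y, hy, h⟩ := exists_integral_multiples ℤ ℚ s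
  refine ⟨y.natAbs, by simpa using hy, fun x hx => ?_⟩
  have h1 := h x hx
  rw [zsmul_eq_mul] at h1
  rcases Int.natAbs_eq y with h2 | h2
  · have : ((y.natAbs : ℕ) : K) = (y : K) := by
      rw [← Int.cast_natCast, ← h2]
    rw [this]
    exact h1
  · have : ((y.natAbs : ℕ) : K) = -(y : K) := by
      rw [← Int.cast_natCast, ← Int.cast_neg]
      congr 1
      omega
    rw [this, neg_mul]
    exact h1.neg

section

variable {M : Type} [Field M] [NumberField M] (w : HeightOneSpectrum (𝓞 M))

theorem val_int {z : M} (hz : IsIntegral ℤ z) : w.valuation M z ≤ 1 :=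
  w.valuation_le_one (K := M) (⟨z, hz⟩ : 𝓞 M)

theorem val_den {d : ℕ} (hd : (d : 𝓞 M) ∉ w.asIdeal) : w.valuation M (d : M) = 1 := by
  have h1 := (w.valuation_eq_one_iff_notMem (K := M) (r := (d : 𝓞 M))).2 hd
  rwa [map_natCast] at h1

theorem val_cst {d : ℕ} (hd : (d : 𝓞 M) ∉ w.asIdeal) {z : M} (hz : IsIntegral ℤ ((d : M) * z)) :
    w.valuation M z ≤ 1 := by
  have h := val_int w hz
  rwa [map_mul, val_den w hd, one_mul] at h

end

section

variable {K A : Type} [Field K] [NumberField K] [CommRing A]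
  [Algebra K A] [Algebra K[X] A] [IsScalarTower K K[X] A]

omit [NumberField K] in
/-- values of the functions of `X` -/
theorem map_poly {M : Type} [Field M] [Algebra K M] (φ : A →ₐ[K] M)
    (p : K[X]) : φ (algebraMap K[X] A p) = aeval (φ (algebraMap K[X] A X)) p := by
  have h : φ.comp (IsScalarTower.toAlgHom K K[X] A) =
      aeval (φ (algebraMap K[X] A X)) := by
    apply Polynomial.algHom_ext
    simp
  have := congrArg (fun f : K[X] →ₐ[K] M => f p) h
  simpa using this

/-- bounded denominators of the elements -/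
theorem exists_bd [Module.Finite K[X] A] (a : A) :
    ∃ d : ℕ, d ≠ 0 ∧ ∀ (M : Type) [Field M] [NumberField M] [Algebra K M] (φ : A →ₐ[K] M)
      (w : HeightOneSpectrum (𝓞 M)), (d : 𝓞 M) ∉ w.asIdeal →
      w.valuation M (φ (algebraMap K[X] A X)) ≤ 1 → w.valuation M (φ a) ≤ 1 := by
  classical
  obtain ⟨P, hP, hPa⟩ := Algebra.IsIntegral.isIntegral (R := K[X]) a
  obtain ⟨d, hd, h⟩ := exists_den ((Finset.range (P.natDegree + 1)).biUnion fun i =>
    (Finset.range ((P.coeff i).natDegree + 1)).image fun j => (P.coeff i).coeff j)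
  refine ⟨d, hd, ?_⟩
  intro M _ _ _ φ w hdw hX
  -- constants
  have hc : ∀ i ∈ Finset.range (P.natDegree + 1), ∀ j,
      w.valuation M (algebraMap K M ((P.coeff i).coeff j)) ≤ 1 := by
    intro i hi j
    by_cases hj : j < (P.coeff i).natDegree + 1
    · refine val_cst w hdw ?_
      have h1 := h ((P.coeff i).coeff j) (Finset.mem_biUnion.2 ⟨i, hi,
        Finset.mem_image.2 ⟨j, Finset.mem_range.2 hj, rfl⟩⟩)
      have h2 := h1.map (algebraMap K M : K →+* M).toIntAlgHom
      simpa using h2
    · rw [coeff_eq_zero_of_natDegree_lt (by omega), map_zero, map_zero]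
      exact zero_le_one
  -- coefficients
  have hb : ∀ i ∈ Finset.range (P.natDegree + 1),
      w.valuation M (φ (algebraMap K[X] A (P.coeff i))) ≤ 1 := by
    intro i hi
    rw [map_poly, aeval_eq_sum_range]
    refine Valuation.map_sum_le _ fun j _ => ?_
    rw [Algebra.smul_def, map_mul, map_pow]
    exact mul_le_one' (hc i hi j) (pow_le_one' hX _)
  by_contra hlt
  rw [not_le] at hlt
  set x := φ a with hx
  have hx0 : w.valuation M x ≠ 0 := fun h0 => by
    rw [h0] at hlt
    exact absurd hlt (by simp)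
  have h1 : x ^ P.natDegree +
      ∑ i ∈ Finset.range P.natDegree, φ (algebraMap K[X] A (P.coeff i)) * x ^ i = 0 := by
    have h2 : eval₂ (algebraMap K[X] A) a P = 0 := hPa
    rw [eval₂_eq_sum_range, Finset.sum_range_succ, Monic.coeff_natDegree hP, map_one,
      one_mul] at h2
    have h3 := congrArg φ h2
    rw [map_add, map_sum, map_pow, map_zero] at h3
    rw [add_comm, ← h3]
    congr 1
    exact Finset.sum_congr rfl fun i _ => by rw [map_mul, map_pow]
  have h2 : w.valuation M (∑ i ∈ Finset.range P.natDegree,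
      φ (algebraMap K[X] A (P.coeff i)) * x ^ i) < w.valuation M x ^ P.natDegree := by
    refine Valuation.map_sum_lt _ (pow_ne_zero _ hx0) fun i hi => ?_
    rw [map_mul, map_pow]
    have hi' := Finset.mem_range.1 hi
    calc _ ≤ 1 * w.valuation M x ^ i :=
          mul_le_mul_left (hb i (Finset.mem_range.2 (by omega))) _
      _ = w.valuation M x ^ i := one_mul _
      _ < _ := pow_lt_pow_right₀ hlt hi'
  have h3 : x ^ P.natDegree = -∑ i ∈ Finset.range P.natDegree,
      φ (algebraMap K[X] A (P.coeff i)) * x ^ i := by linear_combination h1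
  rw [← map_pow, h3, Valuation.map_neg] at h2
  exact lt_irrefl _ h2

end

/-- **CV/SEPC.** -/
theorem t : StmSepC := by
  classical
  intro K A _ _ _ _ _ _ _ _ _ q u g hmax hne
  have h1 : ∀ i j, ∃ (a : Fin (u i) → A) (b : Fin (u j) → A), i ≠ j →
      ∑ k, a k * g i k + ∑ k, b k * g j k = 1 := by
    intro i j
    by_cases hij : i = j
    · exact ⟨0, 0, fun h => absurd hij h⟩
    · have h2 : Ideal.span (Set.range (g i)) ⊔ Ideal.span (Set.range (g j)) = ⊤ :=
        (hmax i).coprime_of_ne (hmax j) (hne i j hij)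
      obtain ⟨x, hx, y, hy, hxy⟩ := Submodule.mem_sup.1
        (h2 ▸ Submodule.mem_top : (1 : A) ∈ Ideal.span (Set.range (g i)) ⊔
          Ideal.span (Set.range (g j)))
      obtain ⟨a, ha⟩ := (Ideal.mem_span_range_iff_exists_fun).1 hx
      obtain ⟨b, hb⟩ := (Ideal.mem_span_range_iff_exists_fun).1 hy
      exact ⟨a, b, fun _ => by rw [ha, hb, hxy]⟩
  choose α β h using h1
  choose d hd0 hd using fun a : A => exists_bd (K := K) a
  refine ⟨Finset.univ.biUnion fun p : Fin q × Fin q =>
    (Finset.univ.image fun k => d (α p.1 p.2 k)) ∪ (Finset.univ.image fun k => d (β p.1 p.2 k)),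
    ?_, ?_⟩
  · intro p hp
    rw [Finset.mem_biUnion] at hp
    obtain ⟨x, -, hx⟩ := hp
    rw [Finset.mem_union, Finset.mem_image, Finset.mem_image] at hx
    rcases hx with ⟨k, -, rfl⟩ | ⟨k, -, rfl⟩ <;> exact hd0 _
  · intro M _ _ _ φ w i j hi hj
    by_contra hij
    have h2 := congrArg φ (h i j hij)
    rw [map_add, map_sum, map_sum, map_one] at h2
    have h3 : w.valuation M (∑ k, φ (α i j k * g i k) + ∑ k, φ (β i j k * g j k)) < 1 := by
      refine Valuation.map_add_lt _ ?_ ?_
      · refine Valuation.map_sum_lt _ one_ne_zero fun k _ => ?_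
        rw [map_mul, map_mul]
        have e1 : w.valuation M (φ (α i j k)) ≤ 1 := hd _ M φ w
          (hi.1 _ (Finset.mem_biUnion.2 ⟨(i, j), Finset.mem_univ _, Finset.mem_union.2
            (Or.inl (Finset.mem_image.2 ⟨k, Finset.mem_univ _, rfl⟩))⟩) (hd0 _)) hi.2.1
        exact lt_of_le_of_lt (mul_le_mul_left e1 _) (by rw [one_mul]; exact hi.2.2 k)
      · refine Valuation.map_sum_lt _ one_ne_zero fun k _ => ?_
        rw [map_mul, map_mul]
        have e1 : w.valuation M (φ (β i j k)) ≤ 1 := hd _ M φ w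
          (hi.1 _ (Finset.mem_biUnion.2 ⟨(i, j), Finset.mem_univ _, Finset.mem_union.2
            (Or.inr (Finset.mem_image.2 ⟨k, Finset.mem_univ _, rfl⟩))⟩) (hd0 _)) hi.2.1
        exact lt_of_le_of_lt (mul_le_mul_left e1 _) (by rw [one_mul]; exact hj.2.2 k)
    rw [h2, map_one] at h3
    exact lt_irrefl _ h3

end Pool.Agent.N776.CV
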