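import Mathlib
import Pool.Agent.N753.DR.Stm2
import Pool.Agent.N776.CV.Sep

/-!
# The linear systems `V_n`

Project CV of helper753, part CV/VNC, by helper776.
-/

set_option autoImplicit false

namespace Pool.Agent.N776.CV

open NumberField IsDedekindDomain Module Polynomial Pool.Agent.N753.DR

section

variable {K A : Type} [Field K] [CommRing A] [Algebra K A] [Algebra K[X] A]
  [IsScalarTower K K[X] A]

/-- the coordinates of the members -/
noncomputable def pc {N : ℕ} (n : ℕ) (c : Fin (N * (n + 1)) → K) (j : Fin N) : K[X] :=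
  ∑ k : Fin (n + 1), C (c (finProdFinEquiv (j, k))) * X ^ (k : ℕ)

theorem mem_Vn {N : ℕ} (e : Fin N → A) (n : ℕ) (c : Fin (N * (n + 1)) → K) :
    mem (Vn (K := K) e n) c = ∑ j, pc n c j • e j := by
  rw [mem, ← Equiv.sum_comp finProdFinEquiv, Fintype.sum_prod_type]
  refine Finset.sum_congr rfl fun j _ => ?_
  rw [pc, Finset.sum_smul]
  refine Finset.sum_congr rfl fun k _ => ?_
  rw [Vn, Equiv.symm_apply_apply, ← smul_eq_C_mul, smul_assoc]

omit [CommRing A] [Algebra K A] [Algebra K[X] A] [IsScalarTower K K[X] A] in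
theorem pc_coeff {N : ℕ} (n : ℕ) (c : Fin (N * (n + 1)) → K) (j : Fin N) (k : Fin (n + 1)) :
    (pc n c j).coeff k = c (finProdFinEquiv (j, k)) := by
  rw [pc, finsetSum_coeff, Finset.sum_eq_single k]
  · rw [coeff_C_mul_X_pow, if_pos rfl]
  · intro b _ hb
    rw [coeff_C_mul_X_pow, if_neg]
    intro h
    exact hb (Fin.ext h.symm)
  · intro h
    exact absurd (Finset.mem_univ _) h

omit [CommRing A] [Algebra K A] [Algebra K[X] A] [IsScalarTower K K[X] A] in
theorem pc_deg {N : ℕ} (n : ℕ) (c : Fin (N * (n + 1)) → K) (j : Fin N) :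
    (pc n c j).natDegree ≤ n := by
  rw [pc]
  refine natDegree_sum_le_of_forall_le _ _ fun k _ => ?_
  refine (natDegree_C_mul_X_pow_le _ _).trans ?_
  have := k.2
  omega

theorem li_Vn {N : ℕ} (e : Basis (Fin N) K[X] A) (n : ℕ) :
    LinearIndependent K (Vn (K := K) e n) := by
  rw [Fintype.linearIndependent_iff]
  intro g hg i
  have h1 : mem (Vn (K := K) e n) g = 0 := hg
  rw [mem_Vn] at h1
  have h2 := (Fintype.linearIndependent_iff.1 e.linearIndependent) _ h1
  obtain ⟨⟨j, k⟩, rfl⟩ := finProdFinEquiv.surjective i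
  have h3 := pc_coeff n g j k
  rw [h2 j, coeff_zero] at h3
  exact h3.symm

theorem psi_repr {L : Type} [Field L] [Algebra K L] (ψ : A →ₐ[K] L) {N : ℕ}
    (e : Basis (Fin N) K[X] A) (a : A) :
    ψ a = ∑ j, aeval (ψ (algebraMap K[X] A X)) (e.repr a j) * ψ (e j) := by
  conv_lhs => rw [← e.sum_repr a]
  rw [map_sum]
  refine Finset.sum_congr rfl fun j _ => ?_
  rw [Algebra.smul_def, map_mul, map_poly]

omit [IsScalarTower K K[X] A] in
theorem psi_Vn {L : Type} [Field L] [Algebra K L] (ψ : A →ₐ[K] L) {N : ℕ} (e : Fin N → A)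
    (n : ℕ) (j : Fin N) (k : Fin (n + 1)) :
    ψ (Vn (K := K) e n (finProdFinEquiv (j, k))) =
      ψ (algebraMap K[X] A X) ^ (k : ℕ) * ψ (e j) := by
  rw [Vn, Equiv.symm_apply_apply, Algebra.smul_def, map_mul, map_pow, map_pow]

theorem wide_Vn {N : ℕ} (e : Basis (Fin N) K[X] A) {j0 : Fin N} (h0 : e j0 = 1) (n : ℕ)
    (hn : 1 ≤ n) {L : Type} [Field L] [Algebra K L] [FiniteDimensional K L] (ψ : A →ₐ[K] L)
    (hψ : Function.Surjective ψ) (hk : finrank K L ≤ 2 * n + 1) :
    Wide K (fun i => ψ (Vn (K := K) e n i)) := by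
  set y := ψ (algebraMap K[X] A X) with hy
  have hpow : ∀ k : Fin (n + 1), ψ (Vn (K := K) e n (finProdFinEquiv (j0, k))) = y ^ (k : ℕ) := by
    intro k
    rw [psi_Vn, h0, map_one, mul_one]
  refine ⟨⟨finProdFinEquiv (j0, 0), ?_, ?_⟩, ?_⟩
  · change ψ (Vn (K := K) e n (finProdFinEquiv (j0, 0))) ≠ 0
    rw [hpow, Fin.val_zero, pow_zero]
    exact one_ne_zero
  · set F := IntermediateField.adjoin K (Set.range fun i => (fun i => ψ (Vn (K := K) e n i)) i /
      (fun i => ψ (Vn (K := K) e n i)) (finProdFinEquiv (j0, 0))) with hF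
    have hm : ∀ i, ψ (Vn (K := K) e n i) ∈ F := by
      intro i
      have h1 : ψ (Vn (K := K) e n i) / ψ (Vn (K := K) e n (finProdFinEquiv (j0, 0))) ∈ F :=
        IntermediateField.subset_adjoin _ _ ⟨i, rfl⟩
      rwa [hpow, Fin.val_zero, pow_zero, div_one] at h1
    have hyF : y ∈ F := by
      have h1 := hm (finProdFinEquiv (j0, ⟨1, by omega⟩))
      rwa [hpow, pow_one] at h1
    rw [eq_top_iff]
    intro z _
    obtain ⟨a, rfl⟩ := hψ z
    rw [psi_repr ψ e a]
    refine sum_mem fun j _ => mul_mem ?_ ?_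
    · rw [aeval_eq_sum_range]
      exact sum_mem fun i _ => F.smul_mem (pow_mem hyF i)
    · have h1 := hm (finProdFinEquiv (j, 0))
      rwa [psi_Vn, Fin.val_zero, pow_zero, one_mul] at h1
  · set V := Submodule.span K (Set.range fun i => ψ (Vn (K := K) e n i)) with hV
    have hint : IsIntegral K y := Algebra.IsIntegral.isIntegral y
    rcases le_or_gt (minpoly K y).natDegree (n + 1) with hd | hd
    · have htop : V = ⊤ := by
        rw [eq_top_iff]
        intro z _
        obtain ⟨a, rfl⟩ := hψ z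
        rw [psi_repr ψ e a]
        refine sum_mem fun j _ => ?_
        have h1 : ((e.repr a j) %ₘ minpoly K y).natDegree < n + 1 :=
          (natDegree_modByMonic_lt _ (minpoly.monic hint) (minpoly.ne_one K y)).trans_le hd
        rw [← minpoly.aeval_modByMonic_minpoly, aeval_eq_sum_range' h1, Finset.sum_mul]
        refine sum_mem fun k hk => ?_
        rw [smul_mul_assoc]
        refine V.smul_mem _ (Submodule.subset_span ⟨finProdFinEquiv (j, ⟨k, Finset.mem_range.1 hk⟩),
          ?_⟩)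
        exact psi_Vn ψ e n j _
      rw [htop, finrank_top]
      have : 0 < finrank K L := finrank_pos
      omega
    · have hli : LinearIndependent K fun k : Fin (n + 1) => y ^ (k : ℕ) :=
        (linearIndependent_pow (K := K) y).comp (Fin.castLE hd.le) (Fin.castLE_injective _)
      have hli2 : LinearIndependent K fun k : Fin (n + 1) =>
          (⟨y ^ (k : ℕ), Submodule.subset_span ⟨finProdFinEquiv (j0, k), hpow k⟩⟩ : V) :=
        LinearIndependent.of_comp V.subtype hli
      have h1 := hli2.fintype_card_le_finrank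
      rw [Fintype.card_fin] at h1
      omega

theorem natDegree_det_le' {N : ℕ} (M : Matrix (Fin N) (Fin N) K[X]) (D : ℕ)
    (h : ∀ i j, (M i j).natDegree ≤ D) : M.det.natDegree ≤ N * D := by
  rw [Matrix.det_apply']
  refine natDegree_sum_le_of_forall_le _ _ fun σ _ => ?_
  refine natDegree_mul_le.trans ?_
  rw [natDegree_intCast, zero_add]
  refine (natDegree_prod_le _ _).trans ?_
  refine (Finset.sum_le_sum fun i _ => h (σ i) i).trans ?_
  rw [Finset.sum_const, Finset.card_univ, Fintype.card_fin, smul_eq_mul]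

theorem deg_Vn [IsDomain A] {N : ℕ} (e : Basis (Fin N) K[X] A) (c1 : ℕ)
    (h1 : ∀ i j l, (e.repr (e i * e j) l).natDegree ≤ c1) (n : ℕ) (c : Fin (N * (n + 1)) → K)
    (hc : mem (Vn (K := K) e n) c ≠ 0) :
    finrank K (A ⧸ Ideal.span {mem (Vn (K := K) e n) c}) ≤ N * n + N * c1 := by
  rw [finrank_quotient_span_eq_natDegree_norm e hc, Algebra.norm_eq_matrix_det e]
  refine (natDegree_det_le' _ (n + c1) fun i j => ?_).trans (le_of_eq (by ring))
  rw [Algebra.leftMulMatrix_eq_repr_mul, mem_Vn, Finset.sum_mul, map_sum, Finsupp.finsetSum_apply]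
  refine natDegree_sum_le_of_forall_le _ _ fun l _ => ?_
  rw [smul_mul_assoc, map_smul, Finsupp.smul_apply, smul_eq_mul]
  exact natDegree_mul_le.trans (add_le_add (pc_deg _ _ _) (h1 _ _ _))

end

theorem exists_le_nat {N : ℕ} (f : Fin N → Fin N → Fin N → ℕ) : ∃ c : ℕ, ∀ i j l, f i j l ≤ c :=
  ⟨Finset.univ.sup fun x : Fin N × Fin N × Fin N => f x.1 x.2.1 x.2.2, fun i j l =>
    Finset.le_sup (f := fun x : Fin N × Fin N × Fin N => f x.1 x.2.1 x.2.2)
      (Finset.mem_univ (i, j, l))⟩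

/-- **CV/VNC.** -/
theorem tVnC : StmVnC := by
  intro K A _ _ _ _ _ _ _ _ _ N e he
  obtain ⟨j0, h0⟩ := he
  obtain ⟨c1, hc1⟩ : ∃ c1 : ℕ, ∀ i j l, (e.repr (e i * e j) l).natDegree ≤ c1 :=
    exists_le_nat fun i j l => (e.repr (e i * e j) l).natDegree
  refine ⟨N * c1, fun n hn => ⟨li_Vn e n, ?_, fun c hc => deg_Vn e c1 hc1 n c hc⟩⟩
  intro L _ _ _ ψ hψ hk
  have : FiniteDimensional K L := Module.Finite.of_restrictScalars_finite ℚ K L
  exact wide_Vn e h0 n hn ψ hψ hk

end Pool.Agent.N776.CV
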